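import Mathlib
import Pool.Agent.U247.CO.Main

/-!
For every bounded normal Carleman operator on `L²(a,b)` the kernel is square-integrable in its
first variable as well, for almost every value of the second variable.

Proof: let `X` be a set of finite measure on which the row norms of the kernel are bounded, and `P`
the restriction to `X`. Then `P N` is a Hilbert-Schmidt operator, hence so is its adjoint `N* P`;
by normality `‖N P f‖ = ‖N* P f‖`, so `N P` is a Hilbert-Schmidt operator, and its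
Hilbert-Schmidt norm is the `L²` norm of the kernel on `(a,b) × X`.
-/

open MeasureTheory ENNReal

namespace Pool.Agent.Results.MP_0ee9ff_an.NormalCarleman

/-- Lebesgue measure on the open interval `(a,b)`, `-∞ ≤ a`, `b ≤ ∞`. -/
noncomputable abbrev lebesgueOn (a b : EReal) : Measure ℝ :=
  volume.restrict {x : ℝ | a < (x : EReal) ∧ (x : EReal) < b}

/-- The complex Hilbert space `L²(μ)`. -/
abbrev L2 (μ : Measure ℝ) : Type := Lp ℂ 2 μ

/-- The bounded operators on `L²(μ)`. -/
abbrev Op (μ : Measure ℝ) : Type := L2 μ →L[ℂ] L2 μ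

/-- The value of `N f` at the point `x` (defined up to a null set). -/
noncomputable def val (μ : Measure ℝ) (N : Op μ) (f : L2 μ) (x : ℝ) : ℂ := N f x

/-- `N` is a Carleman operator on `L²(μ)` with kernel `ν`. -/
def IsCarleman (μ : Measure ℝ) (N : Op μ) (ν : ℝ → ℝ → ℂ) : Prop :=
  AEStronglyMeasurable (Function.uncurry ν) (μ.prod μ) ∧
  (∀ᵐ x ∂μ, ∫⁻ y, ‖ν x y‖ₑ ^ 2 ∂μ < ∞) ∧
  ∀ f : L2 μ, ∀ᵐ x ∂μ, val μ N f x = ∫ y, ν x y * f y ∂μ

/-- A bounded operator `N` on a Hilbert space is normal: `N* N = N N*`. -/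
def IsNormal {H : Type} [NormedAddCommGroup H] [InnerProductSpace ℂ H] [CompleteSpace H]
    (N : H →L[ℂ] H) : Prop :=
  (ContinuousLinearMap.adjoint N) ∘L N = N ∘L (ContinuousLinearMap.adjoint N)

theorem result (a b : EReal) (N : Op (lebesgueOn a b)) (ν : ℝ → ℝ → ℂ)
    (hN : IsCarleman (lebesgueOn a b) N ν) (hnormal : IsNormal N) :
    ∀ᵐ y ∂(lebesgueOn a b), ∫⁻ x, ‖ν x y‖ₑ ^ 2 ∂(lebesgueOn a b) < ∞ := by
  have : Fact ((2 : ℝ≥0∞) ≠ ∞) := ⟨by norm_num⟩
  exact Pool.Agent.U247.CO.normal_carleman N hnormal ν hN.1 hN.2.1 hN.2.2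

end Pool.Agent.Results.MP_0ee9ff_an.NormalCarleman
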